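import Pool.Agent.R709.PV.Main

/-!
A chordal graph with clique number 3 on 17 vertices whose 6-path vertex cover number is at least 5.
-/

set_option autoImplicit false

namespace Pool.Agent.Results.MP_708c97_co.ChordalCounter

open Pool.Agent.R709.PV

/-- There is a chordal graph `G` on `n = 17` vertices with clique number `ω = 3` and
`ψ_6(G) ≥ 5`, so that `ψ_k(G) > (ω - 1) / (ω + k - 2) * n` for `k = 6`. -/
theorem result : ∃ G : SimpleGraph (Fin 17), IsChordal G ∧ G.cliqueNum = 3 ∧ 5 ≤ psi G 6 ∧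
    ((G.cliqueNum : ℝ) - 1) / ((G.cliqueNum : ℝ) + 6 - 2) * (Fintype.card (Fin 17) : ℝ) <
      (psi G 6 : ℝ) := by
  refine ⟨G17, chordal17, cliqueNum17, psi_ge, ?_⟩
  rw [cliqueNum17]
  have h : (5 : ℝ) ≤ (psi G17 6 : ℝ) := by exact_mod_cast psi_ge
  refine lt_of_lt_of_le ?_ h
  simp only [Fintype.card_fin]
  norm_num

end Pool.Agent.Results.MP_708c97_co.ChordalCounter
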